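import Pool.Agent.TH99.WP.Fin

/-!
# Wilson primes to almost every base

`W x y` counts the primes `p ≤ y` with `p ^ 2 ∣ (p - 1)! * x ^ (p - 1) + 1` (the Wilson primes to
base `x`; for `x = 1` they are the Wilson primes).  The usual heuristic predicts
`W x y ~ ∑_{p ≤ y} 1 / p`; here it is proved for almost all `x` of every arithmetic progression.
-/

set_option autoImplicit false

open Finset Filter Topology

namespace Pool.Agent.Results.MP_de5eaa_nt.AlmostAllBases

/-- the number of the primes `p ≤ y` with `p² ∣ (p-1)! x^(p-1) + 1` -/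
noncomputable def W (x y : ℕ) : ℕ :=
  Set.ncard {p : ℕ | p ≤ y ∧ p.Prime ∧ p ^ 2 ∣ (p - 1).factorial * x ^ (p - 1) + 1}

/-- the heuristic count: the sum of `1/p` over the primes `p ≤ y` -/
noncomputable def H (y : ℕ) : ℝ := ∑ p ∈ (range (y + 1)).filter Nat.Prime, 1 / (p : ℝ)

theorem W_eq (x y : ℕ) : W x y = TH99.WP.cnt x y := by
  classical
  unfold W TH99.WP.cnt
  rw [← Set.ncard_coe_finset]
  congr 1
  ext p
  rw [Finset.mem_coe, Finset.mem_filter, Finset.mem_range, Nat.lt_succ_iff]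
  exact Iff.rfl

/-- For almost all bases `x` of every arithmetic progression `a, a + M, a + 2M, …` the number of
Wilson primes `p ≤ y` to base `x` is within a factor `1 ± ε` of `∑_{p ≤ y} 1/p`, which tends to
infinity; hence for every `K` almost all `x` of the progression have at least `K` of them. -/
theorem result :
    (∀ a M : ℕ, 0 < M → ∀ ε : ℝ, 0 < ε → ∃ y₀ : ℕ, ∀ y N : ℕ, y₀ ≤ y → y ^ 4 ≤ N →
      (Set.ncard {n : ℕ | n < N ∧ ε * H y < |(W (a + M * n) y : ℝ) - H y|} : ℝ) ≤ ε * N) ∧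
    Tendsto H atTop atTop ∧
    (∀ a M : ℕ, 0 < M → ∀ K : ℕ, ∀ ε : ℝ, 0 < ε → ∃ y N₀ : ℕ, ∀ N : ℕ, N₀ ≤ N →
      (Set.ncard {n : ℕ | n < N ∧ W (a + M * n) y < K} : ℝ) ≤ ε * N) := by
  classical
  refine ⟨fun a M hM ε hε => ?_, TH99.WP.L_tendsto, fun a M hM K ε hε => ?_⟩
  · obtain ⟨y₀, h⟩ := TH99.WP.main a M hM ε hε
    refine ⟨y₀, fun y N hy hN => ?_⟩
    refine le_trans (le_of_eq ?_) (h y N hy hN)
    rw [← Set.ncard_coe_finset]
    congr 2
    ext n
    simp only [Set.mem_ofPred_eq, Finset.coe_filter, mem_range, W_eq]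
    rfl
  · obtain ⟨y, N₀, h⟩ := TH99.WP.atLeast a M hM ε hε K
    refine ⟨y, N₀, fun N hN => ?_⟩
    refine le_trans (le_of_eq ?_) (h N hN)
    rw [← Set.ncard_coe_finset]
    congr 2
    ext n
    simp only [Set.mem_ofPred_eq, Finset.coe_filter, mem_range, W_eq]

end Pool.Agent.Results.MP_de5eaa_nt.AlmostAllBases
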